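import Pool.Agent.H13.HP.Defs

/-!
# Module ROOT of board hp_modules (MP_6b5a9a_nt)
-/

set_option autoImplicit false

open Polynomial

namespace Pool.Agent.H69.HP.ROOT

open Pool.Agent.H13.HP

universe u

theorem exists_root_of_derivative {p : ℕ} [Fact p.Prime] {k : Type u} [Field k] [IsAlgClosed k]
    [CharP k p] (h : k[X]) (hh : derivative h = 0) : ∃ h1 : k[X], h = h1 ^ p := by
  have hp : p.Prime := Fact.out
  have : ExpChar k p := ExpChar.prime hp
  let e : k ≃+* k := frobeniusEquiv k p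
  refine ⟨(contract p h).map (e.symm : k →+* k), ?_⟩
  have h1 := map_frobenius_expand p ((contract p h).map (e.symm : k →+* k))
  rw [map_expand, Polynomial.map_map] at h1
  have h2 : (frobenius k p).comp (e.symm : k →+* k) = RingHom.id k := by
    ext x
    exact e.apply_symm_apply x
  rw [h2, Polynomial.map_id, expand_contract p hh hp.ne_zero] at h1
  exact h1

theorem root : T_ROOT := by
  intro p _ k _ _ _ j f U W a b c hp2 hsq hj hc hUf hN hUd hda hdb
  have hp : p.Prime := Fact.out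
  have : ExpChar k p := ExpChar.prime hp
  have hodd : Odd p := hp.odd_of_ne_two hp2
  obtain ⟨m, hm⟩ := hodd
  have hf0 : f ≠ 0 := hsq.ne_zero
  -- `h = m + 1`, `p = 2 m + 1`
  obtain ⟨a1, ha1⟩ := exists_root_of_derivative (p := p) a hda
  have hpk : (p : k) = 0 := CharP.cast_eq_zero k p
  have h2k : (2 : k) ≠ 0 := by
    intro h
    have h3 : ((2 : ℕ) : k) = 0 := by exact_mod_cast h
    rw [CharP.cast_eq_zero_iff k p] at h3
    exact hp2 ((Nat.prime_dvd_prime_iff_eq hp Nat.prime_two).1 h3)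
  have hcast : (2 : k) * ((m : k) + 1) = 1 := by
    have : ((2 * m + 1 : ℕ) : k) = 0 := by rw [← hm]; exact hpk
    push_cast at this
    linear_combination this
  have hD : derivative (b * f ^ (m + 1)) = 0 := by
    have h1 : (C (2 : k)) * derivative (b * f ^ (m + 1)) = 0 := by
      rw [derivative_mul, derivative_pow]
      have h3 : C (2 : k) * (C ((m + 1 : ℕ) : k)) = (1 : k[X]) := by
        rw [← C_mul]
        push_cast
        rw [hcast, C_1]
      have h4 : C (2 : k) * (derivative b * f ^ (m + 1) + b * (C ((m + 1 : ℕ) : k) *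
          f ^ (m + 1 - 1) * derivative f)) = f ^ m * (derivative f * b + 2 * f * derivative b) := by
        rw [Nat.add_sub_cancel]
        have h5 : C (2 : k) = (2 : k[X]) := map_ofNat C 2
        linear_combination (b * f ^ m * derivative f) * h3 + (derivative b * f ^ (m + 1)) * h5
      rw [h4, hdb, mul_zero]
    rcases mul_eq_zero.1 h1 with h | h
    · exact absurd (C_eq_zero.1 h) h2k
    · exact h
  obtain ⟨B, hB⟩ := exists_root_of_derivative (p := p) _ hD
  have hfB : f ∣ B := by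
    have h1 : f ∣ B ^ p := by
      rw [← hB]
      exact Dvd.dvd.mul_left (dvd_pow_self f (Nat.succ_ne_zero m)) b
    exact (hsq.dvd_pow_iff_dvd hp.ne_zero).1 h1
  obtain ⟨B1, hB1⟩ := hfB
  have hb : b = f ^ m * B1 ^ p := by
    have h1 : b * f ^ (m + 1) = (f ^ m * B1 ^ p) * f ^ (m + 1) := by
      rw [hB, hB1, mul_pow, hm]
      ring
    exact mul_right_cancel₀ (pow_ne_zero _ hf0) h1
  obtain ⟨c1, hc1⟩ := IsAlgClosed.exists_pow_nat_eq c hp.pos
  refine ⟨a1, B1, c1, ?_, ?_, ?_⟩
  · rintro rfl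
    rw [zero_pow hp.ne_zero] at hc1
    exact hc hc1.symm
  · have h1 : (a1 ^ 2 - f * B1 ^ 2) ^ p = (C c1 * U ^ j) ^ p := by
      have h2 : (C c1 * U ^ j) ^ p = a ^ 2 - f * b ^ 2 := by
        rw [mul_pow (C c1), ← C_pow, hc1, ← pow_mul, mul_comm j p, ← hN]
      have h3 : f * (f ^ m * B1 ^ p) ^ 2 = (f * B1 ^ 2) ^ p := by
        rw [mul_pow f, ← pow_mul B1, mul_comm 2 p, pow_mul B1, mul_pow, ← mul_assoc,
          ← pow_mul, mul_comm m 2, ← pow_succ', hm]
      rw [sub_pow_char, h2, ← h3, ha1, hb, ← pow_mul, ← pow_mul, mul_comm 2 p]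
    exact frobenius_inj k[X] p h1
  · have hpow : (a1 + B1 * W) ^ p = a + b * W + B1 ^ p * W * ((W ^ 2) ^ m - f ^ m) := by
      rw [add_pow_char, ← ha1, mul_pow, hb]
      have : W ^ p = W * (W ^ 2) ^ m := by
        rw [← pow_mul, ← pow_succ', hm]
      rw [this]; ring
    have h1 : (U ^ j) ^ p ∣ (a1 + B1 * W) ^ p := by
      rw [hpow, ← pow_mul, mul_comm j p]
      exact dvd_add hUd (Dvd.dvd.mul_left (hUf.trans (sub_dvd_pow_sub_pow _ _ _)) _)
    exact (UniqueFactorizationMonoid.pow_dvd_pow_iff_dvd hp.ne_zero).1 h1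

end Pool.Agent.H69.HP.ROOT
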