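import Pool.Agent.H13.HP.Defs

/-!
# Module SQ of board hp_modules (MP_6b5a9a_nt)
-/

set_option autoImplicit false

open Polynomial

namespace Pool.Agent.H69.HP.SQ

open Pool.Agent.H13.HP IntermediateField

universe u

/-- Distinct `X ^ m - 1`, `X ^ n - 1` do not multiply to a square. -/
theorem poly_nonsq {F : Type*} [Field F] {m n : ℕ} (hm : (m : F) ≠ 0) (hn : (n : F) ≠ 0)
    (hmn : m ≠ n) (c : F[X]) : c * c ≠ (X ^ m - 1) * (X ^ n - 1) := by
  intro h
  have hm0 : m ≠ 0 := by rintro rfl; simp at hm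
  have hn0 : n ≠ 0 := by rintro rfl; simp at hn
  have hsm : Squarefree (X ^ m - 1 : F[X]) := (X_pow_sub_one_separable_iff.2 hm).squarefree
  have hsn : Squarefree (X ^ n - 1 : F[X]) := (X_pow_sub_one_separable_iff.2 hn).squarefree
  have h1 : (X ^ m - 1 : F[X]) ∣ c := by
    rw [← hsm.dvd_pow_iff_dvd two_ne_zero, sq, h]
    exact dvd_mul_right _ _
  have h2 : (X ^ n - 1 : F[X]) ∣ c := by
    rw [← hsn.dvd_pow_iff_dvd two_ne_zero, sq, h]
    exact dvd_mul_left _ _
  have hdm : (X ^ m - 1 : F[X]).natDegree = m := by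
    have := natDegree_X_pow_sub_C (R := F) (n := m) (r := 1)
    rwa [C_1] at this
  have hdn : (X ^ n - 1 : F[X]).natDegree = n := by
    have := natDegree_X_pow_sub_C (R := F) (n := n) (r := 1)
    rwa [C_1] at this
  have hc0 : c ≠ 0 := by
    rintro rfl
    rw [mul_zero] at h
    exact mul_ne_zero hsm.ne_zero hsn.ne_zero h.symm
  have h3 := congrArg natDegree h
  rw [natDegree_mul hc0 hc0, natDegree_mul hsm.ne_zero hsn.ne_zero, hdm, hdn] at h3
  have h4 := natDegree_le_of_dvd h1 hc0
  have h5 := natDegree_le_of_dvd h2 hc0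
  rw [hdm] at h4
  rw [hdn] at h5
  omega

/-- The product is not a square in the purely transcendental extension. -/
theorem adjoin_nonsq {F E : Type*} [Field F] [Field E] [Algebra F E] {ι : Type*}
    {x : ι → E} (hx : AlgebraicIndependent F x) (i : ι) {m n : ℕ} (hm : (m : F) ≠ 0)
    (hn : (n : F) ≠ 0) (hmn : m ≠ n) (t : adjoin F (Set.range x)) (ht : (t : E) = x i) :
    ¬ IsSquare ((t ^ m - 1) * (t ^ n - 1)) := by
  classical
  rintro ⟨f, hf⟩
  let φ := hx.aevalEquivField
  have ht' : φ (algebraMap (MvPolynomial ι F) _ (MvPolynomial.X i)) = t := by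
    apply Subtype.ext
    rw [ht]
    have := hx.aevalEquivField_algebraMap_apply_coe (MvPolynomial.X i)
    rw [MvPolynomial.aeval_X] at this
    exact this
  have ht2 : φ.symm t = algebraMap (MvPolynomial ι F) _ (MvPolynomial.X i) := by
    rw [← ht', AlgEquiv.symm_apply_apply]
  have h1 : (φ.symm f) * (φ.symm f) = algebraMap (MvPolynomial ι F)
      (FractionRing (MvPolynomial ι F))
      ((MvPolynomial.X i ^ m - 1) * (MvPolynomial.X i ^ n - 1)) := by
    rw [← map_mul, ← hf]
    simp only [map_mul, map_sub, map_pow, map_one, ht2]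
  have h2 : IsIntegral (MvPolynomial ι F) (φ.symm f) := by
    refine ⟨X ^ 2 - C ((MvPolynomial.X i ^ m - 1) * (MvPolynomial.X i ^ n - 1)),
      monic_X_pow_sub_C _ two_ne_zero, ?_⟩
    simp only [eval₂_sub, eval₂_X_pow, eval₂_C]
    rw [sq, h1, sub_self]
  obtain ⟨p, hp⟩ := IsIntegrallyClosed.isIntegral_iff.1 h2
  rw [← hp, ← map_mul] at h1
  have h3 := IsFractionRing.injective (MvPolynomial ι F) (FractionRing (MvPolynomial ι F)) h1
  have h4 := congrArg (MvPolynomial.aeval (R := F) (fun _ : ι => (X : F[X]))) h3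
  rw [map_mul] at h4
  refine poly_nonsq hm hn hmn _ (h4.trans ?_)
  simp

theorem sq (hK : T_SQK.{u}) : T_SQ.{u} := by
  classical
  intro p _ M L _ _ _ hp2 ι A t hA ht hfin
  have hp : p.Prime := Fact.out
  have hcp : CharP M p := charP_of_injective_algebraMap (algebraMap (ZMod p) M).injective p
  have hadj : IntermediateField.adjoin (ZMod p) (A : Set M) = ⊤ := by
    rw [eq_top_iff]
    intro y _
    have h1 : y ∈ Subfield.closure (A : Set M) := by rw [hA]; trivial
    have h2 : Subfield.closure (A : Set M) ≤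
        (IntermediateField.adjoin (ZMod p) (A : Set M)).toSubfield :=
      Subfield.closure_le.2 (IntermediateField.subset_adjoin _ _)
    exact h2 h1
  have hess : Algebra.EssFiniteType (ZMod p) M := by
    rw [← IntermediateField.fg_top_iff]
    exact ⟨A, hadj⟩
  have halg : Algebra.IsAlgebraic (Algebra.adjoin (ZMod p) (insert t (A : Set M))) M := by
    rw [← isAlgebraic_adjoin_iff_top]
    have : IntermediateField.adjoin (ZMod p) (insert t (A : Set M)) = ⊤ := by
      rw [eq_top_iff, ← hadj]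
      exact IntermediateField.adjoin.mono _ _ _ (Set.subset_insert _ _)
    rw [this, Algebra.isAlgebraic_iff_isIntegral]
    exact Algebra.isIntegral_of_surjective topEquiv.surjective
  have hind : AlgebraicIndepOn (ZMod p) id ({t} : Set M) := by
    have : Unique ({t} : Set M) := Set.uniqueSingleton t
    exact (algebraicIndependent_singleton_iff (⟨t, rfl⟩ : ({t} : Set M))).2 ht
  obtain ⟨B, htB, hBA, hB⟩ := exists_isTranscendenceBasis_between (R := ZMod p) {t}
    (insert t (A : Set M)) (by simp) hind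
  set N := IntermediateField.adjoin (ZMod p) (Set.range ((↑) : B → M)) with hN
  have hfinNM : Module.Finite N M := by
    have : Algebra.EssFiniteType N M := .of_comp (ZMod p) _ _
    have : Algebra.IsAlgebraic N M := hB.isAlgebraic_field
    exact Algebra.finite_of_essFiniteType_of_isAlgebraic
  have htB' : t ∈ B := htB rfl
  let tN : N := ⟨t, IntermediateField.subset_adjoin _ _ ⟨⟨t, htB'⟩, rfl⟩⟩
  have hcast : ∀ i : ℕ, ((1 + p * i : ℕ) : ZMod p) ≠ 0 := by
    intro i
    push_cast
    rw [CharP.cast_eq_zero (ZMod p) p, zero_mul, add_zero]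
    exact one_ne_zero
  have hnsN : ∀ i j : ℕ, i ≠ j →
      ¬ IsSquare ((tN ^ (1 + p * i) - 1) * (tN ^ (1 + p * j) - 1)) := by
    intro i j hij
    refine adjoin_nonsq hB.1 ⟨t, htB'⟩ (hcast i) (hcast j) ?_ tN rfl
    intro h
    apply hij
    have : p * i = p * j := by omega
    exact Nat.eq_of_mul_eq_mul_left hp.pos this
  have h2N : (2 : N) ≠ 0 := by
    have hcpN : CharP N p :=
      charP_of_injective_algebraMap (algebraMap (ZMod p) N).injective p
    intro h
    have h3 : ((2 : ℕ) : N) = 0 := by exact_mod_cast h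
    rw [CharP.cast_eq_zero_iff N p] at h3
    exact hp2 ((Nat.prime_dvd_prime_iff_eq hp Nat.prime_two).1 h3)
  have hne : ∀ i : ℕ, t ^ (1 + p * i) - 1 ≠ 0 := by
    intro i h
    apply ht
    refine ⟨X ^ (1 + p * i) - 1, ?_, by simpa using h⟩
    exact (X_pow_sub_one_separable_iff.2 (hcast i)).ne_zero
  have hneN : ∀ i : ℕ, tN ^ (1 + p * i) - 1 ≠ 0 := by
    intro i h
    exact hne i (congrArg Subtype.val h)
  obtain ⟨n0, hn0⟩ := hK N M h2N
  have hneL : ∀ i : ℕ, ι (t ^ (1 + p * i) - 1) ≠ 0 := fun i => (map_ne_zero ι).2 (hne i)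
  let f : ℕ → Lˣ ⧸ (powMonoidHom 2 : Lˣ →* Lˣ).range :=
    fun i => QuotientGroup.mk (Units.mk0 _ (hneL i))
  obtain ⟨y, hy⟩ := Finite.exists_infinite_fiber f
  let P := Infinite.natEmbedding (f ⁻¹' {y})
  let q : ℕ → ℕ := fun i => ((P i : ℕ))
  have hqinj : Function.Injective q := by
    intro i j h
    exact P.injective (Subtype.ext h)
  obtain ⟨i, hi⟩ := hn0 (fun i : Fin (n0 + 1) => (tN ^ (1 + p * q (i + 1)) - 1) *
      (tN ^ (1 + p * q 0) - 1)) (fun i => mul_ne_zero (hneN _) (hneN _)) (by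
      intro i j hij h
      apply hnsN (q (i + 1)) (q (j + 1)) (by
        intro h'
        exact hij (Fin.ext (by simpa using hqinj h')))
      obtain ⟨r, hr⟩ := h
      refine ⟨r / (tN ^ (1 + p * q 0) - 1), ?_⟩
      have h0 := hneN (q 0)
      field_simp
      linear_combination hr)
  refine ⟨1 + p * q (i + 1), 1 + p * q 0, mul_ne_zero (hne _) (hne _), ?_, ?_⟩
  · have hfib : f (q (i + 1)) = f (q 0) := by
      have h1 : f (q (i + 1)) = y := (P (i + 1)).2
      have h2 : f (q 0) = y := (P 0).2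
      rw [h1, h2]
    obtain ⟨k, hk⟩ := QuotientGroup.eq.1 hfib.symm
    have h4 := congrArg (Units.val) hk
    simp only [powMonoidHom_apply, Units.val_pow_eq_pow_val, Units.val_mul,
      Units.val_inv_eq_inv_val, Units.val_mk0] at h4
    refine ⟨(k : L) * ι (t ^ (1 + p * q 0) - 1), ?_⟩
    have h0 := hneL (q 0)
    rw [eq_comm, inv_mul_eq_iff_eq_mul₀ h0] at h4
    rw [map_mul, h4]
    ring
  · intro h
    apply hi
    exact h

end Pool.Agent.H69.HP.SQ
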