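import Pool.Agent.H13.HP.Defs

/-!
# Module ADD of board hp_modules (MP_6b5a9a_nt)
-/

set_option autoImplicit false

open Polynomial

namespace Pool.Agent.H69.HP.ADD

open Pool.Agent.H13.HP

universe u

/-- The row vectors. -/
noncomputable def Lv {M : Type u} [Field M] (p g : ℕ) (A : Fin g → Fin g → M) (i : Fin g) :
    ℕ → Fin g → M
  | 0 => Pi.single i 1
  | r + 1 => fun j => ∑ m, A m j * (Lv p g A i r m) ^ p

theorem pow_Lv {k M : Type u} [Field k] [Field M] (p : ℕ) [Fact p.Prime] [CharP k p]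
    (φ : M →+* k) (g : ℕ) (A : Fin g → Fin g → M) (i : Fin g) (w : Fin g → k)
    (hw : ∀ m, w m ^ p = ∑ j, φ (A m j) * w j) (r : ℕ) :
    w i ^ p ^ r = ∑ m, φ (Lv p g A i r m) * w m := by
  induction r with
  | zero =>
    simp only [pow_zero, pow_one, Lv]
    rw [Finset.sum_eq_single i]
    · simp
    · intro b _ hb
      simp [Pi.single_eq_of_ne hb]
    · intro h; exact absurd (Finset.mem_univ _) h
  | succ r ih =>
    rw [pow_succ, pow_mul, ih, sum_pow_char]
    have : ∀ m, (φ (Lv p g A i r m) * w m) ^ p =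
        ∑ j, φ (Lv p g A i r m) ^ p * (φ (A m j) * w j) := by
      intro m
      rw [mul_pow, hw m, Finset.mul_sum]
    rw [Finset.sum_congr rfl fun m _ => this m, Finset.sum_comm]
    refine Finset.sum_congr rfl fun j _ => ?_
    simp only [Lv, map_sum, map_mul, map_pow]
    rw [Finset.sum_mul]
    refine Finset.sum_congr rfl fun m _ => ?_
    ring

theorem one_coord (p : ℕ) [Fact p.Prime] (k M : Type u) [Field k] [Field M] [CharP k p]
    (φ : M →+* k) (Γ₀ : Type u) [LinearOrderedCommGroupWithZero Γ₀] (v : Valuation k Γ₀) (g : ℕ)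
    (A : Fin g → Fin g → M) (i : Fin g) : ∃ μ : M, μ ≠ 0 ∧ ∀ w : Fin g → k,
    (∀ m, w m ^ p = ∑ j, φ (A m j) * w j) → v (w i) < v (φ μ) → w i = 0 := by
  classical
  have hp : p.Prime := Fact.out
  have hnl : ¬ LinearIndependent M (fun r : Fin (g + 1) => Lv p g A i r) := by
    intro h
    have := h.fintype_card_le_finrank
    simp at this
  obtain ⟨c, hc0, hc1⟩ := Fintype.not_linearIndependent_iff.1 hnl
  obtain ⟨r1, hr1⟩ := hc1
  obtain ⟨r0, hr0, hmin⟩ := Finset.exists_min_image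
    (Finset.univ.filter fun r : Fin (g + 1) => c r ≠ 0) (fun r => (r : ℕ)) ⟨r1, by simp [hr1]⟩
  have hcr0 : c r0 ≠ 0 := by simpa using hr0
  have hlt : ∀ r, c r ≠ 0 → r ≠ r0 → (r0 : ℕ) < r := by
    intro r hr hne
    have := hmin r (by simp [hr])
    rcases lt_or_eq_of_le this with h | h
    · exact h
    · exact absurd (Fin.ext h.symm) hne
  -- the bound
  obtain ⟨μ, hμ, hμmin⟩ := Finset.exists_min_image
    (insert (1 : M) ((Finset.univ.filter fun r : Fin (g + 1) => c r ≠ 0).image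
      fun r => c r0 / c r)) (fun x => v (φ x)) ⟨1, by simp⟩
  have hφ : ∀ x : M, x ≠ 0 → φ x ≠ 0 := fun x hx => (map_ne_zero φ).2 hx
  have hμ0 : μ ≠ 0 := by
    rw [Finset.mem_insert] at hμ
    rcases hμ with h | h
    · rw [h]; exact one_ne_zero
    · obtain ⟨r, hr, rfl⟩ := Finset.mem_image.1 h
      have : c r ≠ 0 := by simpa using hr
      exact div_ne_zero hcr0 this
  have hμ1 : v (φ μ) ≤ 1 := by
    have := hμmin 1 (by simp)
    simpa using this
  have hμr : ∀ r, c r ≠ 0 → v (φ μ) ≤ v (φ (c r0 / c r)) := by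
    intro r hr
    exact hμmin _ (Finset.mem_insert_of_mem (Finset.mem_image.2 ⟨r, by simp [hr], rfl⟩))
  refine ⟨μ, hμ0, fun w hw hlt' => ?_⟩
  by_contra hwi
  have hsum : ∑ r : Fin (g + 1), φ (c r) * w i ^ p ^ (r : ℕ) = 0 := by
    have h1 : ∀ r : Fin (g + 1), φ (c r) * w i ^ p ^ (r : ℕ) =
        ∑ m, φ (c r * Lv p g A i r m) * w m := by
      intro r
      rw [pow_Lv p φ g A i w hw r, Finset.mul_sum]
      refine Finset.sum_congr rfl fun m _ => ?_
      rw [map_mul]; ring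
    rw [Finset.sum_congr rfl fun r _ => h1 r, Finset.sum_comm]
    refine Finset.sum_eq_zero fun m _ => ?_
    rw [← Finset.sum_mul, ← map_sum]
    have h2 := congrFun hc0 m
    simp only [Finset.sum_apply, Pi.smul_apply, smul_eq_mul, Pi.zero_apply] at h2
    rw [h2, map_zero, zero_mul]
  have hvw : v (w i) ≠ 0 := (v.ne_zero_iff).2 hwi
  have hvw0 : 0 < v (w i) := zero_lt_iff.2 hvw
  have hvw1 : v (w i) < 1 := lt_of_lt_of_le hlt' hμ1
  rw [← Finset.add_sum_erase _ _ (Finset.mem_univ r0)] at hsum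
  have hbound : v (∑ r ∈ Finset.univ.erase r0, φ (c r) * w i ^ p ^ (r : ℕ)) <
      v (φ (c r0) * w i ^ p ^ (r0 : ℕ)) := by
    have hpos : v (φ (c r0) * w i ^ p ^ (r0 : ℕ)) ≠ 0 := by
      rw [v.ne_zero_iff]
      exact mul_ne_zero (hφ _ hcr0) (pow_ne_zero _ hwi)
    refine Valuation.map_sum_lt v hpos fun r hr => ?_
    have hne : r ≠ r0 := (Finset.mem_erase.1 hr).1
    by_cases hcr : c r = 0
    · rw [hcr, map_zero, zero_mul, map_zero]
      exact zero_lt_iff.2 hpos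
    · have hl := hlt r hcr hne
      have hpp : p ^ (r0 : ℕ) < p ^ (r : ℕ) := Nat.pow_lt_pow_right hp.one_lt hl
      obtain ⟨e, he⟩ : ∃ e, p ^ (r : ℕ) = p ^ (r0 : ℕ) + (e + 1) :=
        ⟨p ^ (r : ℕ) - p ^ (r0 : ℕ) - 1, by omega⟩
      have hvc : v (φ (c r)) ≠ 0 := (v.ne_zero_iff).2 (hφ _ hcr)
      have h3 : v (w i) ^ (e + 1) < v (φ (c r0)) / v (φ (c r)) := by
        calc v (w i) ^ (e + 1) = v (w i) ^ e * v (w i) := pow_succ _ _
          _ ≤ 1 * v (w i) := by
            gcongr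
            exact pow_le_one₀ zero_le hvw1.le
          _ = v (w i) := one_mul _
          _ < v (φ μ) := hlt'
          _ ≤ v (φ (c r0 / c r)) := hμr r hcr
          _ = v (φ (c r0)) / v (φ (c r)) := by rw [map_div₀, map_div₀]
      rw [he, pow_add, map_mul, map_mul, map_mul, map_pow, map_pow]
      have h4 : v (φ (c r)) * v (w i) ^ (e + 1) < v (φ (c r0)) := by
        rw [lt_div_iff₀ (zero_lt_iff.2 hvc)] at h3
        rw [mul_comm]; exact h3
      have h5 : 0 < v (w i) ^ p ^ (r0 : ℕ) := pow_pos hvw0 _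
      calc v (φ (c r)) * (v (w i) ^ p ^ (r0 : ℕ) * v (w i) ^ (e + 1))
          = (v (φ (c r)) * v (w i) ^ (e + 1)) * v (w i) ^ p ^ (r0 : ℕ) := by
            rw [mul_comm (v (w i) ^ p ^ (r0 : ℕ)), mul_assoc]
        _ < v (φ (c r0)) * v (w i) ^ p ^ (r0 : ℕ) := mul_lt_mul_of_pos_right h4 h5
  have h6 : ∑ r ∈ Finset.univ.erase r0, φ (c r) * w i ^ p ^ (r : ℕ) =
      - (φ (c r0) * w i ^ p ^ (r0 : ℕ)) := by
    rw [eq_neg_iff_add_eq_zero, add_comm]; exact hsum
  rw [h6, Valuation.map_neg] at hbound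
  exact lt_irrefl _ hbound

theorem add : T_ADD := by
  classical
  intro p _ k M _ _ _ φ Γ₀ _ v g A
  choose μ hμ0 hμ using one_coord p k M φ Γ₀ v g A
  obtain ⟨ν, hν, hmin⟩ := Finset.exists_min_image
    (insert (1 : M) (Finset.univ.image μ)) (fun x => v (φ x)) ⟨1, by simp⟩
  refine ⟨ν, ?_, fun w hw hlt => ?_⟩
  · rcases Finset.mem_insert.1 hν with h | h
    · rw [h]; exact one_ne_zero
    · obtain ⟨i, _, rfl⟩ := Finset.mem_image.1 h
      exact hμ0 i
  · funext i
    refine hμ i w hw (lt_of_lt_of_le (hlt i) ?_)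
    exact hmin _ (Finset.mem_insert_of_mem (Finset.mem_image.2 ⟨i, Finset.mem_univ _, rfl⟩))

end Pool.Agent.H69.HP.ADD
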